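import Pool.Agent.KS6_60.DF.Mat

set_option autoImplicit false

/-!
# Completeness
-/

namespace Pool.Agent.KS6_60.DF

open Filter Topology

/-- a sequence outside converging to a point inside gives continuous reductions -/
theorem reduce {X Y : Type} [TopologicalSpace X] [TopologicalSpace Y] (U : ℕ → Set X) (hU : ∀ n, IsClopen (U n))
    (k : ℕ → Y) (k0 : Y) (hk : Tendsto k atTop (𝓝 k0)) :
    ∃ f : X → Y, Continuous f ∧ (∀ x, (∀ n, x ∈ U n) → f x = k0) ∧ ∀ x, (¬ ∀ n, x ∈ U n) → ∃ n, f x = k n := by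
  classical
  let f : X → Y := fun x => if h : ∃ n, x ∉ U n then k (Nat.find h) else k0
  refine ⟨f, ?_, fun x hx => ?_, fun x hx => ?_⟩
  · rw [continuous_iff_continuousAt]
    intro x
    by_cases h : ∃ n, x ∉ U n
    · -- locally constant
      have hn := Nat.find_spec h
      have hlt : ∀ m < Nat.find h, x ∈ U m := fun m hm => by
        by_contra hc
        exact Nat.find_min h hm hc
      have h1 : ∀ᶠ y in 𝓝 x, y ∉ U (Nat.find h) := (hU _).isClosed.isOpen_compl.mem_nhds hn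
      have h2 : ∀ᶠ y in 𝓝 x, ∀ m ∈ Finset.range (Nat.find h), y ∈ U m := by
        rw [Filter.eventually_all_finset]
        intro m hm
        exact (hU m).isOpen.mem_nhds (hlt m (Finset.mem_range.1 hm))
      have h3 : ∀ᶠ y in 𝓝 x, f x = f y := by
        filter_upwards [h1, h2] with y hy1 hy2
        have hy : ∃ n, y ∉ U n := ⟨_, hy1⟩
        have e : Nat.find hy = Nat.find h := by
          rw [Nat.find_eq_iff]
          exact ⟨hy1, fun m hm => not_not.2 (hy2 m (Finset.mem_range.2 hm))⟩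
        show (if h : ∃ n, x ∉ U n then k (Nat.find h) else k0) = if h : ∃ n, y ∉ U n then k (Nat.find h) else k0
        rw [dif_pos h, dif_pos hy, e]
      exact (tendsto_const_nhds (x := f x)).congr' h3
    · have hx : f x = k0 := dif_neg h
      push Not at h
      intro V hV
      rw [hx] at hV
      obtain ⟨N, hN⟩ := (hk.eventually hV).exists_forall_of_atTop
      have h2 : ∀ᶠ y in 𝓝 x, ∀ m ∈ Finset.range N, y ∈ U m := by
        rw [Filter.eventually_all_finset]
        intro m _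
        exact (hU m).isOpen.mem_nhds (h m)
      show ∀ᶠ y in 𝓝 x, f y ∈ V
      filter_upwards [h2] with y hy
      by_cases h' : ∃ n, y ∉ U n
      · have e : f y = k (Nat.find h') := dif_pos h'
        rw [e]
        refine hN _ ?_
        by_contra hc
        push Not at hc
        exact Nat.find_spec h' (hy _ (Finset.mem_range.2 hc))
      · have e : f y = k0 := dif_neg h'
        rw [e]
        exact mem_of_mem_nhds hV
  · have : ¬ ∃ n, x ∉ U n := by push Not; exact hx
    exact dif_neg this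
  · have : ∃ n, x ∉ U n := by push Not at hx; exact hx
    exact ⟨_, dif_pos this⟩

/-- closed sets of the Cantor space are countable intersections of clopen sets -/
theorem cantor_clopen {C : Set (ℕ → Bool)} (hC : IsClosed C) :
    ∃ U : ℕ → Set (ℕ → Bool), (∀ n, IsClopen (U n)) ∧ ∀ x, x ∈ C ↔ ∀ n, x ∈ U n := by
  have hb := isTopologicalBasis_isClopen (X := ℕ → Bool)
  obtain ⟨T0, hT0, hT1⟩ := hb.open_eq_sUnion hC.isOpen_compl
  obtain ⟨T, hTc, hTs, hTe⟩ := TopologicalSpace.isOpen_sUnion_countable T0 fun s hs => (hT0 hs).isOpen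
  obtain ⟨V, hV⟩ := (hTc.insert ∅).exists_eq_range (Set.insert_nonempty _ _)
  have hVc : ∀ n, IsClopen (V n) := by
    intro n
    have h1 : V n ∈ insert ∅ T := by rw [hV]; exact ⟨n, rfl⟩
    rcases h1 with h1 | h1
    · rw [h1]; exact isClopen_empty
    · exact hT0 (hTs h1)
  refine ⟨fun n => (V n)ᶜ, fun n => (hVc n).compl, fun x => ?_⟩
  have h2 : x ∈ Cᶜ ↔ ∃ n, x ∈ V n := by
    rw [hT1, ← hTe, Set.mem_sUnion]
    constructor
    · rintro ⟨s, hs, hxs⟩
      have h1 : s ∈ insert ∅ T := Or.inr hs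
      rw [hV] at h1
      obtain ⟨n, rfl⟩ := h1
      exact ⟨n, hxs⟩
    · rintro ⟨n, hn⟩
      have h1 : V n ∈ insert ∅ T := by rw [hV]; exact ⟨n, rfl⟩
      rcases h1 with h1 | h1
      · rw [h1] at hn; exact absurd hn (Set.notMem_empty x)
      · exact ⟨_, h1, hn⟩
  constructor
  · intro hx n hn
    exact (h2.2 ⟨n, hn⟩) hx
  · intro hx
    by_contra hc
    obtain ⟨n, hn⟩ := h2.1 hc
    exact hx n hn

/-- `F` is `Π⁰₁`-hard: every closed subset of the Cantor space is a continuous preimage of it -/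
def ClosedHard {Y : Type} [TopologicalSpace Y] (F : Set Y) : Prop :=
  ∀ C : Set (ℕ → Bool), IsClosed C → ∃ f : (ℕ → Bool) → Y, Continuous f ∧ ∀ x, f x ∈ F ↔ x ∈ C

/-- `F` is `Π⁰₁`-complete: closed and `Π⁰₁`-hard -/
def ClosedComplete {Y : Type} [TopologicalSpace Y] (F : Set Y) : Prop := IsClosed F ∧ ClosedHard F

theorem hard_of {Y : Type} [TopologicalSpace Y] {F : Set Y} {k : ℕ → Y} {k0 : Y}
    (hk : Tendsto k atTop (𝓝 k0)) (h0 : k0 ∈ F) (hn : ∀ n, k n ∉ F) : ClosedHard F := by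
  intro C hC
  obtain ⟨U, hU, hCU⟩ := cantor_clopen hC
  obtain ⟨f, hf, h1, h2⟩ := reduce U hU k k0 hk
  refine ⟨f, hf, fun x => ?_⟩
  constructor
  · intro hx
    by_contra hc
    obtain ⟨n, h3⟩ := h2 x (fun h => hc ((hCU x).2 h))
    rw [h3] at hx
    exact hn n hx
  · intro hx
    rw [h1 x ((hCU x).1 hx)]
    exact h0

theorem not_open_seq {Y : Type} [TopologicalSpace Y] {F : Set Y} {k : ℕ → Y} {k0 : Y}
    (hk : Tendsto k atTop (𝓝 k0)) (h0 : k0 ∈ F) (hn : ∀ n, k n ∉ F) : ¬ IsOpen F := by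
  intro h
  obtain ⟨n, h1⟩ := (hk.eventually (h.mem_nhds h0)).exists
  exact hn n h1

/-- the quotient `A / K` is commutative -/
def QuotientCommutative {A : Type} [NormedRing A] (K : ProperIdeal A) : Prop :=
  ∀ x y : K.ideal.ringCon.Quotient, x * y = y * x

theorem K0_comm : QuotientCommutative K0 := by
  intro x y
  induction x using Quotient.inductionOn' with
  | _ a =>
    induction y using Quotient.inductionOn' with
    | _ b =>
      show ((a : K0.ideal.ringCon.Quotient) * b) = b * a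
      rw [← RingCon.coe_mul, ← RingCon.coe_mul, RingCon.eq, TwoSidedIdeal.rel_iff]
      refine (mem_kerI (B := ℂ) norm_one.le zero_norm _).2 ?_
      rw [map_sub, map_mul, map_mul, mul_comm, sub_self]

theorem exists_seq : ∃ k : ℕ → ProperIdeal L1, Tendsto k atTop (𝓝 K0) ∧ ∀ n, ¬ QuotientDedekindFinite (k n) := by
  have : Nontrivial Sq := ⟨⟨BoundedContinuousFunction.const ℕ 1, 0, fun h => by
    have h2 : (BoundedContinuousFunction.const ℕ (1 : ℂ)) 0 = (0 : Sq) 0 := by rw [h]
    exact one_ne_zero (h2 : (1 : ℂ) = 0)⟩⟩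
  have : Nontrivial (Sq →L[ℂ] Sq) := ⟨⟨Rsh * Lsh, 1, Rsh_Lsh⟩⟩
  have h1 : ‖(1 : Sq →L[ℂ] Sq)‖ = 1 := norm_one
  exact ⟨K (B := Sq →L[ℂ] Sq) h1 Lsh_norm Rsh_norm, K_lim h1 Lsh_norm Rsh_norm,
    K_not_df h1 Lsh_norm Rsh_norm Lsh_Rsh Rsh_Lsh⟩

theorem matDF_one {A : Type} [NormedRing A] (K : ProperIdeal A) : MatDF K 1 ↔ QuotientDedekindFinite K := by
  refine ⟨df_of_mat one_pos, fun h x y hxy => ?_⟩
  have h1 := congrFun (congrFun hxy 0) 0
  rw [Matrix.mul_apply, Fin.sum_univ_one, Matrix.one_apply_eq] at h1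
  have h2 := h _ _ h1
  ext i j
  rw [Subsingleton.elim i 0, Subsingleton.elim j 0, Matrix.mul_apply, Fin.sum_univ_one, Matrix.one_apply_eq]
  exact h2

end Pool.Agent.KS6_60.DF
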