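import Pool.Agent.KS6_60.DF.Closed

set_option autoImplicit false

/-!
# The Banach algebra `ℓ₁(S)`, `S` the free monoid on countably many generators
-/

namespace Pool.Agent.KS6_60.DF

/-- the free monoid on countably many generators -/
abbrev S := FreeMonoid ℕ

/-- the finitely supported elements of `ℓ₁(S)`: the monoid algebra -/
abbrev Pre := MonoidAlgebra ℂ S

/-- the `ℓ₁`-norm -/
noncomputable def N (f : Pre) : ℝ := ∑ s ∈ f.coeff.support, ‖f.coeff s‖

theorem N_eq {f : Pre} {T : Finset S} (h : f.coeff.support ⊆ T) : N f = ∑ s ∈ T, ‖f.coeff s‖ := by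
  refine Finset.sum_subset h fun s _ hs => ?_
  rw [Finsupp.notMem_support_iff.1 hs, norm_zero]

theorem N_nonneg (f : Pre) : 0 ≤ N f := Finset.sum_nonneg fun _ _ => norm_nonneg _

theorem N_zero : N 0 = 0 := by simp [N]

theorem N_add (f g : Pre) : N (f + g) ≤ N f + N g := by
  classical
  have h : (f + g).coeff.support ⊆ f.coeff.support ∪ g.coeff.support := by
    rw [MonoidAlgebra.coeff_add]
    exact Finsupp.support_add
  rw [N_eq h, N_eq (f := f) Finset.subset_union_left, N_eq (f := g) Finset.subset_union_right,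
    ← Finset.sum_add_distrib]
  refine Finset.sum_le_sum fun s _ => ?_
  rw [MonoidAlgebra.coeff_add, Finsupp.add_apply]
  exact norm_add_le _ _

theorem N_sum {ι : Type} (s : Finset ι) (g : ι → Pre) : N (∑ i ∈ s, g i) ≤ ∑ i ∈ s, N (g i) := by
  classical
  induction s using Finset.induction_on with
  | empty => simp [N_zero]
  | insert a s ha ih =>
    rw [Finset.sum_insert ha, Finset.sum_insert ha]
    exact (N_add _ _).trans (by linarith)

theorem N_single (s : S) (c : ℂ) : N (MonoidAlgebra.single s c) ≤ ‖c‖ := by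
  classical
  have h : (MonoidAlgebra.single s c : Pre).coeff.support ⊆ {s} := by
    rw [MonoidAlgebra.coeff_single]
    exact Finsupp.support_single_subset
  rw [N_eq h, Finset.sum_singleton, MonoidAlgebra.coeff_single, Finsupp.single_eq_same]

theorem N_mul (f g : Pre) : N (f * g) ≤ N f * N g := by
  rw [MonoidAlgebra.mul_def]
  unfold Finsupp.sum
  refine (N_sum _ _).trans ?_
  have h : N f * N g = ∑ a ∈ f.coeff.support, ∑ b ∈ g.coeff.support, ‖f.coeff a‖ * ‖g.coeff b‖ := by
    rw [N, N, Finset.sum_mul_sum]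
  rw [h]
  refine Finset.sum_le_sum fun a _ => (N_sum _ _).trans (Finset.sum_le_sum fun b _ => ?_)
  exact (N_single _ _).trans (norm_mul_le _ _)

theorem N_neg (f : Pre) : N (-f) = N f := by
  unfold N
  rw [MonoidAlgebra.coeff_neg, Finsupp.support_neg]
  exact Finset.sum_congr rfl fun s _ => by rw [Finsupp.neg_apply, norm_neg]

theorem N_eq_zero {f : Pre} (h : N f = 0) : f = 0 := by
  rw [N, Finset.sum_eq_zero_iff_of_nonneg fun _ _ => norm_nonneg _] at h
  ext s
  by_cases hs : s ∈ f.coeff.support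
  · simpa using h s hs
  · simpa using hs

/-- the `ℓ₁`-norm as a ring norm -/
noncomputable def ringNorm : RingNorm Pre where
  toFun := N
  map_zero' := N_zero
  add_le' := N_add
  neg' := N_neg
  mul_le' := N_mul
  eq_zero_of_map_eq_zero' := fun _ => N_eq_zero

noncomputable instance preNormedRing : NormedRing Pre := ringNorm.toNormedRing

theorem norm_def (f : Pre) : ‖f‖ = N f := rfl

/-- the Banach algebra `ℓ₁(S)`: the completion of the monoid algebra in the `ℓ₁`-norm -/
abbrev L1 := UniformSpace.Completion Pre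

section

variable {B : Type} [NormedRing B] [NormedAlgebra ℂ B]

omit [NormedAlgebra ℂ B] in
theorem norm_word {b : ℕ → B} (h1 : ‖(1 : B)‖ ≤ 1) (hb : ∀ n, ‖b n‖ ≤ 1) (s : S) :
    ‖FreeMonoid.lift b s‖ ≤ 1 := by
  induction s using FreeMonoid.inductionOn with
  | one => simpa using h1
  | of x => simpa using hb x
  | mul x y hx hy =>
    rw [map_mul]
    exact (norm_mul_le _ _).trans (mul_le_one₀ hx (norm_nonneg _) hy)

/-- the homomorphism on the monoid algebra -/
noncomputable def pre (b : ℕ → B) : Pre →ₐ[ℂ] B := MonoidAlgebra.lift ℂ B S (FreeMonoid.lift b)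

theorem norm_pre {b : ℕ → B} (h1 : ‖(1 : B)‖ ≤ 1) (hb : ∀ n, ‖b n‖ ≤ 1) (f : Pre) :
    ‖pre b f‖ ≤ ‖f‖ := by
  rw [pre, MonoidAlgebra.lift_apply, norm_def, N, Finsupp.sum]
  refine (norm_sum_le _ _).trans (Finset.sum_le_sum fun s _ => ?_)
  refine (norm_smul_le _ _).trans ?_
  exact mul_le_of_le_one_right (norm_nonneg _) (norm_word h1 hb s)

theorem cont_pre {b : ℕ → B} (h1 : ‖(1 : B)‖ ≤ 1) (hb : ∀ n, ‖b n‖ ≤ 1) : Continuous (pre b).toRingHom := by
  have := AddMonoidHomClass.continuous_of_bound (pre b).toRingHom 1 (fun f => by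
    rw [one_mul]; exact norm_pre h1 hb f)
  exact this

/-- the homomorphism `ℓ₁(S) → B` with given values at the generators -/
noncomputable def homL1 [CompleteSpace B] {b : ℕ → B} (h1 : ‖(1 : B)‖ ≤ 1) (hb : ∀ n, ‖b n‖ ≤ 1) : L1 →+* B :=
  UniformSpace.Completion.extensionHom (pre b).toRingHom (cont_pre h1 hb)

theorem homL1_coe [CompleteSpace B] {b : ℕ → B} (h1 : ‖(1 : B)‖ ≤ 1) (hb : ∀ n, ‖b n‖ ≤ 1) (f : Pre) :
    homL1 h1 hb (f : L1) = pre b f :=
  UniformSpace.Completion.extensionHom_coe (pre b).toRingHom (cont_pre h1 hb) f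

theorem homL1_cont [CompleteSpace B] {b : ℕ → B} (h1 : ‖(1 : B)‖ ≤ 1) (hb : ∀ n, ‖b n‖ ≤ 1) :
    Continuous (homL1 h1 hb) := UniformSpace.Completion.continuous_extension

/-- the kernel as a proper closed ideal -/
noncomputable def kerI [CompleteSpace B] [Nontrivial B] {b : ℕ → B} (h1 : ‖(1 : B)‖ ≤ 1) (hb : ∀ n, ‖b n‖ ≤ 1) :
    ProperIdeal L1 where
  ideal := TwoSidedIdeal.ker (homL1 h1 hb)
  closed := by
    have : ((TwoSidedIdeal.ker (homL1 h1 hb) : TwoSidedIdeal L1) : Set L1) = homL1 h1 hb ⁻¹' {0} := by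
      ext x
      exact TwoSidedIdeal.mem_ker _
    rw [this]
    exact isClosed_singleton.preimage (homL1_cont h1 hb)
  proper := by
    intro h
    have h2 : (1 : L1) ∈ TwoSidedIdeal.ker (homL1 h1 hb) := by rw [h]; trivial
    rw [TwoSidedIdeal.mem_ker, map_one] at h2
    exact one_ne_zero h2

end

end Pool.Agent.KS6_60.DF
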