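import Pool.Agent.KS6_60.DF.L1

set_option autoImplicit false
set_option maxHeartbeats 400000

/-!
# Dedekind infinite quotients of `ℓ₁(S)` converging to `ℂ`
-/

namespace Pool.Agent.KS6_60.DF

open Filter Topology


section

variable {B : Type} [NormedRing B] [NormedAlgebra ℂ B] [CompleteSpace B]

theorem homL1_norm {b : ℕ → B} (h1 : ‖(1 : B)‖ ≤ 1) (hb : ∀ n, ‖b n‖ ≤ 1) (x : L1) :
    ‖homL1 h1 hb x‖ ≤ ‖x‖ := by
  induction x using UniformSpace.Completion.induction_on with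
  | hp => exact isClosed_le (homL1_cont h1 hb).norm continuous_norm
  | ih f =>
    rw [homL1_coe, UniformSpace.Completion.norm_coe]
    exact norm_pre h1 hb f

theorem mem_kerI [Nontrivial B] {b : ℕ → B} (h1 : ‖(1 : B)‖ ≤ 1) (hb : ∀ n, ‖b n‖ ≤ 1) (x : L1) :
    x ∈ (kerI h1 hb).ideal ↔ homL1 h1 hb x = 0 :=
  TwoSidedIdeal.mem_ker (homL1 h1 hb)

theorem dist_eq [Nontrivial B] {b : ℕ → B} (h1 : ‖(1 : B)‖ ≤ 1) (h1' : ‖(1 : B)‖ = 1) (hb : ∀ n, ‖b n‖ ≤ 1)
    {f : Pre} {c : ℂ} (hf : pre b f = algebraMap ℂ B c) :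
    Metric.infDist (f : L1) ((kerI h1 hb).ideal : Set L1) = ‖c‖ := by
  apply le_antisymm
  · have hz : ((f - MonoidAlgebra.single 1 c : Pre) : L1) ∈ (kerI h1 hb).ideal := by
      rw [mem_kerI, homL1_coe, map_sub, hf, pre, MonoidAlgebra.lift_single, map_one,
        Algebra.algebraMap_eq_smul_one, sub_self]
    refine (Metric.infDist_le_dist_of_mem hz).trans ?_
    rw [dist_eq_norm, ← UniformSpace.Completion.coe_sub, sub_sub_cancel, UniformSpace.Completion.norm_coe]
    exact N_single _ _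
  · rw [Metric.le_infDist ⟨0, (kerI h1 hb).ideal.zero_mem⟩]
    intro z hz
    have hz' : homL1 h1 hb z = 0 := (mem_kerI h1 hb z).1 hz
    have h2 := homL1_norm h1 hb ((f : L1) - z)
    rw [map_sub, hz', sub_zero, homL1_coe, hf, norm_algebraMap, h1', mul_one] at h2
    rw [dist_eq_norm]
    exact h2

/-- the images of the generators -/
noncomputable def gen (p q : B) (n : ℕ) : ℕ → B :=
  fun j => if j = n then p else if j = n + 1 then q else 0

theorem gen_norm {p q : B} (hp : ‖p‖ ≤ 1) (hq : ‖q‖ ≤ 1) (n j : ℕ) : ‖gen p q n j‖ ≤ 1 := by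
  unfold gen
  split_ifs
  · exact hp
  · exact hq
  · simp

theorem gen_zero (p q : B) {n j : ℕ} (h : j < n) : gen p q n j = 0 := by
  unfold gen
  rw [if_neg (by omega), if_neg (by omega)]

theorem word_lim (p q : B) (s : S) : ∃ m, ∀ n ≥ m, FreeMonoid.lift (gen p q n) s =
    algebraMap ℂ B (FreeMonoid.lift (0 : ℕ → ℂ) s) := by
  induction s using FreeMonoid.inductionOn with
  | one => exact ⟨0, fun n _ => by simp⟩
  | of x => exact ⟨x + 1, fun n hn => by
      rw [FreeMonoid.lift_eval_of, FreeMonoid.lift_eval_of, gen_zero p q (by omega)]; simp⟩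
  | mul x y hx hy =>
    obtain ⟨m1, h1⟩ := hx
    obtain ⟨m2, h2⟩ := hy
    exact ⟨max m1 m2, fun n hn => by
      rw [map_mul, map_mul, map_mul, h1 n (by omega), h2 n (by omega)]⟩

theorem pre_lim (p q : B) (f : Pre) : ∃ m, ∀ n ≥ m, pre (gen p q n) f =
    algebraMap ℂ B (pre (0 : ℕ → ℂ) f) := by
  induction f using MonoidAlgebra.induction_on with
  | of s =>
    obtain ⟨m, h⟩ := word_lim p q s
    exact ⟨m, fun n hn => by
      rw [pre, pre, MonoidAlgebra.lift_of, MonoidAlgebra.lift_of, h n hn]⟩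
  | add f g hf hg =>
    obtain ⟨m1, h1⟩ := hf
    obtain ⟨m2, h2⟩ := hg
    exact ⟨max m1 m2, fun n hn => by
      rw [map_add, map_add, map_add, h1 n (by omega), h2 n (by omega)]⟩
  | smul r f hf =>
    obtain ⟨m, h⟩ := hf
    exact ⟨m, fun n hn => by
      rw [map_smul, map_smul, h n hn, smul_eq_mul, map_mul, Algebra.smul_def]⟩

end

theorem zero_norm (j : ℕ) : ‖(0 : ℕ → ℂ) j‖ ≤ 1 := by simp

/-- the limit: the augmentation ideal -/
noncomputable def K0 : ProperIdeal L1 := kerI (B := ℂ) norm_one.le zero_norm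

theorem K0_df : QuotientDedekindFinite K0 := by
  rw [dedekind_iff]
  intro a b h
  have h1 := (mem_kerI (B := ℂ) norm_one.le zero_norm _).1 h
  refine (mem_kerI (B := ℂ) norm_one.le zero_norm _).2 ?_
  rw [map_sub, map_mul] at h1 ⊢
  rw [mul_comm, h1]

section

variable {B : Type} [NormedRing B] [NormedAlgebra ℂ B] [CompleteSpace B] [Nontrivial B] {p q : B}

/-- the Dedekind infinite quotients -/
noncomputable def K (h1 : ‖(1 : B)‖ = 1) (hp : ‖p‖ ≤ 1) (hq : ‖q‖ ≤ 1) (n : ℕ) : ProperIdeal L1 :=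
  kerI h1.le (gen_norm hp hq n)

theorem dist_lim (h1 : ‖(1 : B)‖ = 1) (hp : ‖p‖ ≤ 1) (hq : ‖q‖ ≤ 1) (f : Pre) :
    ∃ m, ∀ n ≥ m, Metric.infDist (f : L1) ((K h1 hp hq n).ideal : Set L1) =
      Metric.infDist (f : L1) (K0.ideal : Set L1) := by
  obtain ⟨m, h⟩ := pre_lim p q f
  refine ⟨m, fun n hn => ?_⟩
  have e1 := dist_eq h1.le h1 (gen_norm hp hq n) (h n hn)
  have e2 := dist_eq (B := ℂ) norm_one.le norm_one zero_norm (f := f) (c := pre (0 : ℕ → ℂ) f) rfl
  exact e1.trans e2.symm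

theorem K_lim (h1 : ‖(1 : B)‖ = 1) (hp : ‖p‖ ≤ 1) (hq : ‖q‖ ≤ 1) : Tendsto (K h1 hp hq) atTop (𝓝 K0) := by
  have hi : IsInducing (fun (K : ProperIdeal L1) x => Metric.infDist x (K.ideal : Set L1)) := ⟨rfl⟩
  rw [hi.tendsto_nhds_iff, tendsto_pi_nhds]
  intro x
  rw [Metric.tendsto_atTop]
  intro ε hε
  obtain ⟨f, hf⟩ := (UniformSpace.Completion.denseRange_coe (α := Pre)).exists_dist_lt x (half_pos hε)
  obtain ⟨m, hm⟩ := dist_lim h1 hp hq f
  refine ⟨m, fun n hn => ?_⟩
  have a1 := Metric.infDist_le_infDist_add_dist (s := ((K h1 hp hq n).ideal : Set L1)) (x := x) (y := (f : L1))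
  have a2 := Metric.infDist_le_infDist_add_dist (s := ((K h1 hp hq n).ideal : Set L1)) (x := (f : L1)) (y := x)
  have a3 := Metric.infDist_le_infDist_add_dist (s := (K0.ideal : Set L1)) (x := x) (y := (f : L1))
  have a4 := Metric.infDist_le_infDist_add_dist (s := (K0.ideal : Set L1)) (x := (f : L1)) (y := x)
  rw [dist_comm (f : L1) x] at a2 a4
  rw [hm n hn] at a1 a2
  show dist (Metric.infDist x ((K h1 hp hq n).ideal : Set L1)) (Metric.infDist x (K0.ideal : Set L1)) < ε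
  rw [Real.dist_eq, abs_lt]
  constructor <;> linarith

theorem K_not_df (h1 : ‖(1 : B)‖ = 1) (hp : ‖p‖ ≤ 1) (hq : ‖q‖ ≤ 1) (hpq : p * q = 1) (hqp : q * p ≠ 1)
    (n : ℕ) : ¬ QuotientDedekindFinite (K h1 hp hq n) := by
  rw [dedekind_iff]
  intro h
  have e : ∀ j, homL1 h1.le (gen_norm hp hq n) ((MonoidAlgebra.of ℂ S (FreeMonoid.of j) : Pre) : L1) =
      gen p q n j := by
    intro j
    rw [homL1_coe, pre, MonoidAlgebra.lift_of, FreeMonoid.lift_eval_of]
  have g1 : gen p q n n = p := by unfold gen; rw [if_pos rfl]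
  have g2 : gen p q n (n + 1) = q := by unfold gen; rw [if_neg (by omega), if_pos rfl]
  have h3 := h ((MonoidAlgebra.of ℂ S (FreeMonoid.of n) : Pre) : L1)
    ((MonoidAlgebra.of ℂ S (FreeMonoid.of (n + 1)) : Pre) : L1) (by
      refine (mem_kerI h1.le (gen_norm hp hq n) _).2 ?_
      rw [map_sub, map_mul, map_one, e, e, g1, g2, hpq, sub_self])
  have h2 := (mem_kerI h1.le (gen_norm hp hq n) _).1 h3
  rw [map_sub, map_mul, map_one, e, e, g1, g2, sub_eq_zero] at h2
  exact hqp h2.symm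

/-- Dedekind finiteness is not an open condition. -/
theorem not_open_of (h1 : ‖(1 : B)‖ = 1) (hp : ‖p‖ ≤ 1) (hq : ‖q‖ ≤ 1) (hpq : p * q = 1) (hqp : q * p ≠ 1) :
    ¬ IsOpen {K : ProperIdeal L1 | QuotientDedekindFinite K} := by
  intro h
  have h2 := (K_lim h1 hp hq).eventually (h.mem_nhds K0_df)
  obtain ⟨n, hn⟩ := h2.exists
  exact K_not_df h1 hp hq hpq hqp n hn

end

/-- bounded sequences -/
abbrev Sq := BoundedContinuousFunction ℕ ℂ

/-- the left shift -/
noncomputable def Lsh : Sq →L[ℂ] Sq :=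
  LinearMap.mkContinuous
    { toFun := fun f => f.compContinuous ⟨Nat.succ, continuous_of_discreteTopology⟩
      map_add' := fun f g => by ext n; rfl
      map_smul' := fun c f => by ext n; rfl } 1 (fun f => by
    rw [one_mul]
    refine (BoundedContinuousFunction.norm_le (norm_nonneg _)).2 fun n => ?_
    exact f.norm_coe_le_norm (n + 1))

/-- the right shift of a sequence -/
def rs (f : ℕ → ℂ) : ℕ → ℂ
  | 0 => 0
  | n + 1 => f n

/-- the right shift -/
noncomputable def Rsh : Sq →L[ℂ] Sq :=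
  LinearMap.mkContinuous
    { toFun := fun f => BoundedContinuousFunction.ofNormedAddCommGroupDiscrete (rs f) ‖f‖ (fun n => by
        cases n with
        | zero => simp [rs]
        | succ n => exact f.norm_coe_le_norm n)
      map_add' := fun f g => by
        ext n
        cases n with
        | zero => simp [rs]
        | succ n => rfl
      map_smul' := fun c f => by
        ext n
        cases n with
        | zero => simp [rs]
        | succ n => rfl } 1 (fun f => by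
    rw [one_mul]
    refine (BoundedContinuousFunction.norm_le (norm_nonneg _)).2 fun n => ?_
    cases n with
    | zero => simp [rs]
    | succ n => exact f.norm_coe_le_norm n)

theorem Lsh_norm : ‖Lsh‖ ≤ 1 := LinearMap.mkContinuous_norm_le _ zero_le_one _

theorem Rsh_norm : ‖Rsh‖ ≤ 1 := LinearMap.mkContinuous_norm_le _ zero_le_one _

theorem Lsh_Rsh : Lsh * Rsh = 1 := by
  ext f n
  rfl

theorem Rsh_Lsh : Rsh * Lsh ≠ 1 := by
  intro h
  have h1 := congrArg (fun T : Sq →L[ℂ] Sq => T (BoundedContinuousFunction.const ℕ 1) 0) h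
  have h2 : (Rsh * Lsh) (BoundedContinuousFunction.const ℕ (1 : ℂ)) 0 = 0 := rfl
  have h3 : (1 : Sq →L[ℂ] Sq) (BoundedContinuousFunction.const ℕ (1 : ℂ)) 0 = 1 := rfl
  simp only [h2, h3] at h1
  exact zero_ne_one h1


theorem not_open : ¬ IsOpen {K : ProperIdeal L1 | QuotientDedekindFinite K} := by
  haveI : Nontrivial Sq := ⟨⟨BoundedContinuousFunction.const ℕ 1, 0, fun h => by
    have h2 : (BoundedContinuousFunction.const ℕ (1 : ℂ)) 0 = (0 : Sq) 0 := by rw [h]
    exact one_ne_zero (h2 : (1 : ℂ) = 0)⟩⟩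
  haveI : Nontrivial (Sq →L[ℂ] Sq) := ⟨⟨Rsh * Lsh, 1, Rsh_Lsh⟩⟩
  exact not_open_of (B := Sq →L[ℂ] Sq) norm_one Lsh_norm Rsh_norm Lsh_Rsh Rsh_Lsh

end Pool.Agent.KS6_60.DF
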