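import Pool.Agent.KS6_60.DF.Lim

set_option autoImplicit false
set_option maxHeartbeats 1000000

/-!
# Matrix algebras over the quotients
-/

namespace Pool.Agent.KS6_60.DF

attribute [local instance] Matrix.linftyOpNormedRing

/-- the matrix algebra `M_n(A / K)` is Dedekind finite -/
def MatDF {A : Type} [NormedRing A] (K : ProperIdeal A) (n : ℕ) : Prop :=
  ∀ x y : Matrix (Fin n) (Fin n) K.ideal.ringCon.Quotient, x * y = 1 → y * x = 1

theorem matDF_iff {A : Type} [NormedRing A] (K : ProperIdeal A) (n : ℕ) :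
    MatDF K n ↔ ∀ a b : Matrix (Fin n) (Fin n) A, (∀ i j, (1 - a * b) i j ∈ K.ideal) →
      ∀ i j, (1 - b * a) i j ∈ K.ideal := by
  let π : A →+* K.ideal.ringCon.Quotient := K.ideal.ringCon.mk'
  have hπ : ∀ c d : A, π c = π d ↔ d - c ∈ K.ideal := by
    intro c d
    rw [← TwoSidedIdeal.rel_iff, ← RingCon.eq, eq_comm]
    rfl
  have hs : Function.Surjective π := by
    intro x
    induction x using Quotient.inductionOn' with
    | _ a => exact ⟨a, rfl⟩
  have key : ∀ a b : Matrix (Fin n) (Fin n) A, (a.map π * b.map π = 1) ↔ ∀ i j, (1 - a * b) i j ∈ K.ideal := by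
    intro a b
    have e : (1 : Matrix (Fin n) (Fin n) K.ideal.ringCon.Quotient) = (1 : Matrix (Fin n) (Fin n) A).map π :=
      (Matrix.map_one π (map_zero π) (map_one π)).symm
    rw [← Matrix.map_mul, e, ← Matrix.ext_iff]
    refine forall_congr' fun i => forall_congr' fun j => ?_
    rw [Matrix.map_apply, Matrix.map_apply, hπ]
    rfl
  have hsm : ∀ x : Matrix (Fin n) (Fin n) K.ideal.ringCon.Quotient, ∃ a : Matrix (Fin n) (Fin n) A, a.map π = x := by
    intro x
    choose a ha using fun i j => hs (x i j)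
    exact ⟨Matrix.of a, by ext i j; exact ha i j⟩
  constructor
  · intro h a b hab
    exact (key b a).1 (h _ _ ((key a b).2 hab))
  · intro h x y hxy
    obtain ⟨a, rfl⟩ := hsm x
    obtain ⟨b, rfl⟩ := hsm y
    exact (key b a).2 (h a b ((key a b).1 hxy))

theorem entry_le {A : Type} [NormedRing A] {n : ℕ} (t : Matrix (Fin n) (Fin n) A) (i j : Fin n) : ‖t i j‖ ≤ ‖t‖ := by
  rw [Matrix.linfty_opNorm_def]
  have h1 : ‖t i j‖₊ ≤ ∑ j, ‖t i j‖₊ := Finset.single_le_sum (f := fun j => ‖t i j‖₊) (fun _ _ => zero_le) (Finset.mem_univ j)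
  have h2 : ∑ j, ‖t i j‖₊ ≤ Finset.univ.sup fun i => ∑ j, ‖t i j‖₊ :=
    Finset.le_sup (f := fun i => ∑ j, ‖t i j‖₊) (Finset.mem_univ i)
  exact_mod_cast h1.trans h2

theorem le_entry {A : Type} [NormedRing A] {n : ℕ} (t : Matrix (Fin n) (Fin n) A) {ε : ℝ} (hε : 0 ≤ ε)
    (h : ∀ i j, ‖t i j‖ ≤ ε) : ‖t‖ ≤ n * ε := by
  rw [Matrix.linfty_opNorm_def]
  have h1 : (Finset.univ.sup fun i => ∑ j, ‖t i j‖₊) ≤ Real.toNNReal (n * ε) := by
    refine Finset.sup_le fun i _ => ?_
    rw [← NNReal.coe_le_coe, Real.coe_toNNReal _ (by positivity), NNReal.coe_sum]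
    have h2 : ∑ j, ‖t i j‖ ≤ ∑ _j : Fin n, ε := Finset.sum_le_sum fun j _ => h i j
    rw [Finset.sum_const, Finset.card_univ, Fintype.card_fin, nsmul_eq_mul] at h2
    exact h2
  have h3 := NNReal.coe_le_coe.2 h1
  rwa [Real.coe_toNNReal _ (by positivity)] at h3

/-- **Dedekind finiteness of `M_n(A / K)` is a closed condition.** -/
theorem closedM (A : Type) [NormedRing A] [CompleteSpace A] (n : ℕ) :
    IsClosed {K : ProperIdeal A | MatDF K n} := by
  have hc : @CompleteSpace (Matrix (Fin n) (Fin n) A)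
      (NormedRing.toMetricSpace.toPseudoMetricSpace.toUniformSpace) :=
    inferInstanceAs (CompleteSpace (Fin n → Fin n → A))
  rw [← isOpen_compl_iff, isOpen_iff_mem_nhds]
  intro K hK
  rw [Set.mem_compl_iff, Set.mem_ofPred_eq, matDF_iff] at hK
  push Not at hK
  obtain ⟨a, b, hab, i0, j0, hba⟩ := hK
  have hne : (K.ideal : Set A).Nonempty := ⟨0, K.ideal.zero_mem⟩
  have h0 : ∀ i j, Metric.infDist ((1 - a * b) i j) (K.ideal : Set A) = 0 := fun i j =>
    Metric.infDist_zero_of_mem (hab i j)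
  have hδ : 0 < Metric.infDist ((1 - b * a) i0 j0) (K.ideal : Set A) := by
    rw [← K.closed.notMem_iff_infDist_pos hne]
    exact hba
  set δ := Metric.infDist ((1 - b * a) i0 j0) (K.ideal : Set A) with hδdef
  set C : ℝ := ‖b‖ * (2 * ‖(1 : Matrix (Fin n) (Fin n) A)‖) * ‖a‖ with hC
  have hC0 : 0 ≤ C := by positivity
  obtain ⟨ε, hε0, hε1, hε2⟩ : ∃ ε : ℝ, 0 < ε ∧ ε ≤ 1 / 2 ∧ C * ε < δ / 2 := by
    refine ⟨min (1 / 2) (δ / 4 / (C + 1)), lt_min (by norm_num) (by positivity),
      min_le_left _ _, ?_⟩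
    have h1 : C * min (1 / 2) (δ / 4 / (C + 1)) ≤ C * (δ / 4 / (C + 1)) :=
      mul_le_mul_of_nonneg_left (min_le_right _ _) hC0
    have h2 : C * (δ / 4 / (C + 1)) ≤ δ / 4 := by
      rw [mul_div_assoc', div_le_iff₀ (by positivity)]
      nlinarith
    linarith
  have hη : 0 < ε / (n + 1) := by positivity
  have h1 : ∀ᶠ K' : ProperIdeal A in nhds K, ∀ i j,
      Metric.infDist ((1 - a * b) i j) (K'.ideal : Set A) < ε / (n + 1) := by
    rw [Filter.eventually_all]
    intro i
    rw [Filter.eventually_all]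
    intro j
    exact ((continuous_infDist ((1 - a * b) i j)).tendsto K).eventually
      (gt_mem_nhds (by rw [h0]; exact hη))
  have h2 : ∀ᶠ K' : ProperIdeal A in nhds K,
      δ / 2 < Metric.infDist ((1 - b * a) i0 j0) (K'.ideal : Set A) :=
    ((continuous_infDist ((1 - b * a) i0 j0)).tendsto K).eventually
      (lt_mem_nhds (by rw [← hδdef]; linarith))
  filter_upwards [h1, h2] with K' h3 h4
  rw [Set.mem_compl_iff, Set.mem_ofPred_eq, matDF_iff]
  intro hdf
  have hne' : (K'.ideal : Set A).Nonempty := ⟨0, K'.ideal.zero_mem⟩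
  have hk' : ∀ i j, ∃ k ∈ (K'.ideal : Set A), dist ((1 - a * b) i j) k < ε / (n + 1) := fun i j =>
    (Metric.infDist_lt_iff hne').1 (h3 i j)
  choose k hk hkd using hk'
  set t : Matrix (Fin n) (Fin n) A := 1 - a * b - Matrix.of k with ht
  have htn : ‖t‖ ≤ ε := by
    have h5 : ‖t‖ ≤ n * (ε / (n + 1)) := by
      refine le_entry t hη.le fun i j => ?_
      have := hkd i j
      rw [dist_eq_norm] at this
      exact this.le
    refine h5.trans ?_
    rw [mul_div_assoc', div_le_iff₀ (by positivity)]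
    nlinarith
  have ht1 : ‖t‖ < 1 := by linarith
  set u := Units.oneSub t ht1 with hu
  have hval : (u : Matrix (Fin n) (Fin n) A) = 1 - t := rfl
  set v : Matrix (Fin n) (Fin n) A := ((u⁻¹ : (Matrix (Fin n) (Fin n) A)ˣ) : Matrix (Fin n) (Fin n) A) with hv
  have huv : (1 - t) * v = 1 := by rw [← hval]; exact u.mul_inv
  have hvu : v * (1 - t) = 1 := by rw [← hval]; exact u.inv_mul
  have hv1 : v = 1 + v * t := by
    have := hvu
    rw [mul_sub, mul_one, sub_eq_iff_eq_add] at this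
    exact this
  have hvn : ‖v‖ ≤ 2 * ‖(1 : Matrix (Fin n) (Fin n) A)‖ := by
    have h5 : ‖v‖ ≤ ‖(1 : Matrix (Fin n) (Fin n) A)‖ + ‖v‖ * ‖t‖ := by
      conv_lhs => rw [hv1]
      exact (norm_add_le _ _).trans (by gcongr; exact norm_mul_le _ _)
    have h6 : ‖v‖ * ‖t‖ ≤ ‖v‖ * (1 / 2) :=
      mul_le_mul_of_nonneg_left (by linarith) (norm_nonneg _)
    linarith
  have h7 : ∀ i j, (1 - a * (b * v)) i j ∈ K'.ideal := by
    have h8 : 1 - a * (b * v) = Matrix.of k * v := by
      have h9 : a * b = 1 - t - Matrix.of k := by rw [ht]; abel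
      rw [← mul_assoc, h9, sub_mul, huv]
      abel
    intro i j
    rw [h8, Matrix.mul_apply]
    exact K'.ideal.finsetSum_mem _ _ fun l _ => K'.ideal.mul_mem_right _ _ (hk i l)
  have h10 := hdf a (b * v) h7 i0 j0
  have h11 : Metric.infDist ((1 - b * a) i0 j0) (K'.ideal : Set A) ≤ ‖(b * (v - 1) * a) i0 j0‖ := by
    apply infDist_le_of_sub_mem
    have : 1 - b * a - b * (v - 1) * a = 1 - b * v * a := by noncomm_ring
    rw [← Matrix.sub_apply, this]
    exact h10
  have h12 : ‖b * (v - 1) * a‖ ≤ C * ε := by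
    have h13 : v - 1 = v * t := by rw [sub_eq_iff_eq_add, add_comm]; exact hv1
    calc ‖b * (v - 1) * a‖ ≤ ‖b * (v - 1)‖ * ‖a‖ := norm_mul_le _ _
      _ ≤ ‖b‖ * ‖v - 1‖ * ‖a‖ := by gcongr; exact norm_mul_le _ _
      _ ≤ ‖b‖ * (2 * ‖(1 : Matrix (Fin n) (Fin n) A)‖ * ε) * ‖a‖ := by
          gcongr
          rw [h13]
          exact (norm_mul_le _ _).trans (mul_le_mul hvn htn (norm_nonneg _) (by positivity))
      _ = C * ε := by rw [hC]; ring
  have h13 := entry_le (b * (v - 1) * a) i0 j0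
  linarith

/-- `A / K` is stably finite: all matrix algebras over it are Dedekind finite -/
def StablyFinite {A : Type} [NormedRing A] (K : ProperIdeal A) : Prop := ∀ n, MatDF K n

theorem closedS (A : Type) [NormedRing A] [CompleteSpace A] :
    IsClosed {K : ProperIdeal A | StablyFinite K} := by
  have : {K : ProperIdeal A | StablyFinite K} = ⋂ n, {K : ProperIdeal A | MatDF K n} := by
    ext K; simp [StablyFinite]
  rw [this]
  exact isClosed_iInter fun n => closedM A n

/-- `M_n(ℂ)` is Dedekind finite -/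
theorem K0_mat (n : ℕ) : MatDF K0 n := by
  rw [matDF_iff]
  intro a b h
  let φ : L1 →+* ℂ := homL1 (B := ℂ) norm_one.le zero_norm
  have key : ∀ a b : Matrix (Fin n) (Fin n) L1, (a.map φ * b.map φ = 1) ↔ ∀ i j, (1 - a * b) i j ∈ K0.ideal := by
    intro a b
    have e : (1 : Matrix (Fin n) (Fin n) ℂ) = (1 : Matrix (Fin n) (Fin n) L1).map φ :=
      (Matrix.map_one φ (map_zero φ) (map_one φ)).symm
    rw [← Matrix.map_mul, e, ← Matrix.ext_iff]
    refine forall_congr' fun i => forall_congr' fun j => ?_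
    rw [Matrix.map_apply, Matrix.map_apply]
    refine Iff.trans ?_ (mem_kerI (B := ℂ) norm_one.le zero_norm _).symm
    rw [Matrix.sub_apply, map_sub, sub_eq_zero, eq_comm]
  exact (key b a).1 (mul_eq_one_comm.1 ((key a b).2 h))

/-- if `M_n(A / K)` is Dedekind finite for some `n ≥ 1` then so is `A / K` -/
theorem df_of_mat {A : Type} [NormedRing A] {K : ProperIdeal A} {n : ℕ} (hn : 0 < n) (h : MatDF K n) :
    QuotientDedekindFinite K := by
  intro x y hxy
  have h1 := h (Matrix.diagonal fun _ => x) (Matrix.diagonal fun _ => y) (by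
    rw [Matrix.diagonal_mul_diagonal, hxy, Matrix.diagonal_one])
  rw [Matrix.diagonal_mul_diagonal] at h1
  have h2 := congrFun (congrFun h1 ⟨0, hn⟩) ⟨0, hn⟩
  simpa using h2

end Pool.Agent.KS6_60.DF
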